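import Mathlib
import Pool.Agent.W512.ML.Defs
import Pool.Agent.W512.ML.Reg
import Pool.Agent.W253.ML.Reg

/-!
# The singular locus of the moduli space of endomorphisms of projective space

`Moduli k N d` is the geometric quotient `M_d^N = End_d^N / PGL_{N+1}` (its closed points, with the
quotient of the Zariski topology), `IsRegularOn` describes its structure sheaf (functions whose pull
back to `End_d^N` is regular), `localRing x` is the local ring at the point `x` (germs of regular
functions) and `singularLocus k N d` is the set of points whose local ring is not regular.

For `N ≥ 2`, `d ≥ 2` and `k` algebraically closed of characteristic zero a point `[f]` of `M_d^N` is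
singular if and only if `Aut(f) ≠ 1`.
-/

set_option autoImplicit false

namespace Pool.Agent.Results.MP_807a54_ag.SingularLocus

open Pool.Agent.Helper819.Dyn Pool.Agent.W512.ML

/-- The local rings of `M_d^N` are Noetherian local rings and, for `N ≥ 2` and `d ≥ 2`, the singular
points are exactly the classes of the morphisms with a nontrivial automorphism. -/
theorem result (k : Type) [Field k] [IsAlgClosed k] [CharZero k] (N d : ℕ) (hN : 2 ≤ N)
    (hd : 2 ≤ d) :
    (∀ x : Moduli k N d, IsLocalRing (localRing x) ∧ IsNoetherianRing (localRing x)) ∧
      singularLocus k N d = {x | ∃ F : EndTuple k N d, cls F = x ∧ HasAut F} :=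
  final (fun hd _ hf triv => Pool.Agent.W253.MLR.gens hd hf triv) k N d hN hd

end Pool.Agent.Results.MP_807a54_ag.SingularLocus
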